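import Pool.Agent.H46R2.SY.GRID
import Pool.Agent.H46R2.SY.SET
import Mathlib.Combinatorics.SimpleGraph.Finsubgraph

/-! Monochromatic symmetric sets (MP_76c039_co): the grid argument of `H46R2.SY` for graphs of large
chromatic number in place of complete graphs. -/

set_option autoImplicit false
open scoped Classical

namespace Pool.Agent.V11180.SY

open Pool.Agent.H46R2.SY

/-- the grid argument for a graph on the finite set `S` that is not `k`-colourable. -/
theorem grid_graph (hNEU : S_NEU) (G : Type) [Group G] (R : G → G → Prop) (k n : ℕ) (c : G → Fin k)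
    (S : Finset G)
    (hS : ∀ f : G → Fin k, ∃ x ∈ S, ∃ y ∈ S, x ≠ y ∧ R x y ∧ f x = f y)
    (hmid : ∀ x ∈ S, ∀ y ∈ S, x ≠ y → R x y → ∃ m : G, m * x⁻¹ * m = y ∧
      (Subgroup.centralizer ({m⁻¹ * x} : Set G)).index = 0) :
    SymAt k c n := by
  classical
  have hk : 0 < k := by
    rcases Nat.eq_zero_or_pos k with h | h
    · subst h; exact (Fin.elim0 (c 1))
    · exact h
  choose! mid hm1 hm2 using hmid
  -- midpoints, nontrivial elements, forbidden set
  set D : Finset G := S ∪ (S ×ˢ S).image (fun q => mid q.1 q.2) with hDdef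
  set E : Finset G := ((S ×ˢ S).filter (fun q => q.1 ≠ q.2 ∧ R q.1 q.2)).image
    (fun q => (mid q.1 q.2)⁻¹ * q.1) with hEdef
  set F : Finset G := Finset.image₂ (fun d e => d * e * d⁻¹) D E with hFdef
  have hSne : S.Nonempty := by
    obtain ⟨x, hx, -⟩ := hS c
    exact ⟨x, hx⟩
  have hDne : D.Nonempty := by
    obtain ⟨s, hs⟩ := hSne
    exact ⟨s, Finset.mem_union_left _ hs⟩
  have hEfc : ∀ e ∈ E, (Subgroup.centralizer ({e} : Set G)).index = 0 := by
    intro e he
    rw [hEdef, Finset.mem_image] at he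
    obtain ⟨q, hq, rfl⟩ := he
    rw [Finset.mem_filter, Finset.mem_product] at hq
    exact hm2 q.1 hq.1.1 q.2 hq.1.2 hq.2.1 hq.2.2
  have hF : ∀ d ∈ D, ∀ e ∈ E, d * e * d⁻¹ ∈ F := by
    intro d hd e he
    rw [hFdef]
    exact Finset.mem_image₂_of_mem hd he
  -- the choice of the separating elements
  have hpick0 : ∀ C : Finset G, ∃ a : G,
      (∀ c ∈ C, (Subgroup.centralizer ({c} : Set G)).index = 0) →
      ∀ c ∈ C, a⁻¹ * c * a ∉ F := by
    intro C
    by_cases hC : ∀ c ∈ C, (Subgroup.centralizer ({c} : Set G)).index = 0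
    · obtain ⟨a, ha⟩ := hNEU G C F hC
      exact ⟨a, fun _ => ha⟩
    · exact ⟨1, fun h => absurd h hC⟩
  choose pick hpick using hpick0
  set a : ℕ → G := fun t => pick (gridC pick E D t) with ha
  set M := k * n with hMdef
  set L := D.card * M with hLdef
  let ext : (Fin L → G) → ℕ → G := fun p t => if h : t < L then p ⟨t, h⟩ else 1
  have hext : ∀ (p : Fin L → G) (i : Fin L) (x : G),
      ext (Function.update p i x) = Function.update (ext p) i x := by
    intro p i x
    funext t
    by_cases hti : t = i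
    · subst hti
      simp [ext]
    · rw [Function.update_of_ne hti]
      simp only [ext]
      split_ifs with h
      · have : (⟨t, h⟩ : Fin L) ≠ i := by
          intro hh; apply hti; rw [← hh]
        rw [Function.update_of_ne this]
      · rfl
  let W : (Fin L → G) → G := fun p => gridW a (ext p) L
  let Good : (Fin L → G) → Fin L → Prop := fun p i =>
    ∃ x ∈ S, ∃ y ∈ S, x ≠ y ∧ R x y ∧ p i = mid x y ∧
      c (W (Function.update p i x)) = c (W (Function.update p i y))
  have hgood : ∀ p ∈ Fintype.piFinset (fun _ : Fin L => D), ∀ i,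
      ∃ m ∈ D, Good (Function.update p i m) i := by
    intro p hp i
    obtain ⟨x, hx, y, hy, hxy, hR, hc⟩ := hS (fun s => c (W (Function.update p i s)))
    refine ⟨mid x y, ?_, x, hx, y, hy, hxy, hR, by simp, ?_⟩
    · rw [hDdef]
      exact Finset.mem_union_right _ (Finset.mem_image.2 ⟨(x, y), by simp [hx, hy], rfl⟩)
    · simpa using hc
  obtain ⟨p, hp, hcardJ⟩ := grid_count D hDne M Good hgood
  set J := Finset.univ.filter (fun i => Good p i) with hJ
  have hJg : ∀ i ∈ J, Good p i := fun i hi => (Finset.mem_filter.1 hi).2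
  choose! X hX Y hY hXY hRXY hpi hcol using hJg
  -- colours
  obtain ⟨col, -, hcol2⟩ := Finset.exists_le_card_fiber_of_mul_le_card_of_maps_to
    (s := J) (t := (Finset.univ : Finset (Fin k))) (n := n)
    (f := fun i => c (W (Function.update p i (X i)))) (by simp)
    ⟨⟨0, hk⟩, Finset.mem_univ _⟩ (by
      rw [Finset.card_univ, Fintype.card_fin]
      refine hcardJ.trans (le_of_eq ?_)
      rw [hJ]
      congr 1
      ext i
      simp only [Finset.mem_filter])
  set J' := J.filter (fun i => c (W (Function.update p i (X i))) = col) with hJ'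
  have hJ'J : ∀ i ∈ J', i ∈ J := fun i hi => (Finset.mem_filter.1 hi).1
  have hJ'c : ∀ i ∈ J', c (W (Function.update p i (X i))) = col :=
    fun i hi => (Finset.mem_filter.1 hi).2
  set g : G := W p with hg
  let x' : Fin L → G := fun i => W (Function.update p i (X i))
  let y' : Fin L → G := fun i => W (Function.update p i (Y i))
  have hWupd : ∀ (i : Fin L) (x : G), W (Function.update p i x)
      = gridW a (ext p) i * x * (gridW a (ext p) i * p i)⁻¹ * g := by
    intro i x
    simp only [W, hg, hext]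
    rw [gridW_update a (ext p) i x L i.2]
    simp [ext]
  have hsym : ∀ i ∈ J, g * (x' i)⁻¹ * g = y' i := by
    intro i hi
    simp only [x', y', hWupd]
    have h1 := hm1 (X i) (hX i hi) (Y i) (hY i hi) (hXY i hi) (hRXY i hi)
    rw [← hpi i hi] at h1
    rw [← h1]
    group
  have hsym' : ∀ i ∈ J, g * (y' i)⁻¹ * g = x' i := by
    intro i hi
    rw [← hsym i hi]; group
  have hdD : ∀ i < L, ext p i ∈ D := by
    intro i hi
    simp only [ext, dif_pos hi]
    exact (Fintype.mem_piFinset.1 hp) _
  have hxE : ∀ i ∈ J, (ext p i)⁻¹ * X i ∈ E := by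
    intro i hi
    have : ext p i = p i := by simp [ext]
    rw [this, hpi i hi, hEdef, Finset.mem_image]
    exact ⟨(X i, Y i), by simp [hX i hi, hY i hi, hXY i hi, hRXY i hi], rfl⟩
  have hinj : Set.InjOn x' (J' : Set (Fin L)) := by
    have key : ∀ i ∈ J, ∀ j ∈ J, i < j → x' i ≠ x' j := by
      intro i hi j hj hij
      have := grid_distinct pick E D F hF hEfc hpick (ext p) L hdD i j hij j.2 (X i) (X j)
        (hxE i hi) (hxE j hj)
      simp only [x', W, hext]
      exact this
    intro i hi j hj hxx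
    rcases lt_trichotomy i j with h | h | h
    · exact absurd hxx (key i (hJ'J i hi) j (hJ'J j hj) h)
    · exact h
    · exact absurd hxx.symm (key j (hJ'J j hj) i (hJ'J i hi) h)
  refine ⟨J'.image x' ∪ J'.image y', g, ?_, ?_, ?_⟩
  · calc n ≤ J'.card := hcol2
      _ = (J'.image x').card := (Finset.card_image_of_injOn hinj).symm
      _ ≤ _ := Finset.card_le_card Finset.subset_union_left
  · have hall : ∀ z ∈ J'.image x' ∪ J'.image y', c z = col := by
      intro z hz
      rw [Finset.mem_union, Finset.mem_image, Finset.mem_image] at hz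
      rcases hz with ⟨i, hi, rfl⟩ | ⟨i, hi, rfl⟩
      · exact hJ'c i hi
      · rw [← hJ'c i hi]; exact (hcol i (hJ'J i hi)).symm
    intro u hu v hv
    rw [hall u hu, hall v hv]
  · ext z
    simp only [Finset.coe_union, Finset.coe_image, Set.mem_union, Set.mem_image]
    constructor
    · rintro (⟨i, hi, rfl⟩ | ⟨i, hi, rfl⟩)
      · exact ⟨y' i, Or.inr ⟨i, hi, rfl⟩, hsym' i (hJ'J i hi)⟩
      · exact ⟨x' i, Or.inl ⟨i, hi, rfl⟩, hsym i (hJ'J i hi)⟩
    · rintro ⟨w, (⟨i, hi, rfl⟩ | ⟨i, hi, rfl⟩), rfl⟩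
      · exact Or.inr ⟨i, hi, (hsym i (hJ'J i hi)).symm⟩
      · exact Or.inl ⟨i, hi, (hsym' i (hJ'J i hi)).symm⟩


/-- compactness: a relation all of whose finite parts can be coloured with `k` colours -/
theorem compact_col {G : Type} (R : G → G → Prop) (hsymm : ∀ x y, R x y → R y x) (k : ℕ)
    (h : ∀ S : Finset G, ∃ f : G → Fin k, ∀ x ∈ S, ∀ y ∈ S, x ≠ y → R x y → f x ≠ f y) :
    ∃ f : G → Fin k, ∀ x y, x ≠ y → R x y → f x ≠ f y := by
  let Γ : SimpleGraph G :=
    { Adj := fun x y => x ≠ y ∧ R x y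
      symm := ⟨fun x y h => ⟨h.1.symm, hsymm _ _ h.2⟩⟩
      loopless := ⟨fun x h => h.1 rfl⟩ }
  have key : Nonempty (Γ →g (⊤ : SimpleGraph (Fin k))) := by
    refine SimpleGraph.nonempty_hom_of_forall_finite_subgraph_hom ?_
    intro G' hG'
    have hex := h hG'.toFinset
    refine ⟨fun v => hex.choose v.1, ?_⟩
    intro a b hab
    have h1 : Γ.Adj a.1 b.1 := G'.adj_sub hab
    exact hex.choose_spec a.1 (hG'.mem_toFinset.2 a.2) b.1 (hG'.mem_toFinset.2 b.2) h1.1 h1.2
  obtain ⟨φ⟩ := key
  refine ⟨φ, fun x y hxy hR => ?_⟩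
  have h1 : Γ.Adj x y := ⟨hxy, hR⟩
  have h2 := φ.map_rel h1
  exact h2

/-- If every finite colouring of `G` gives the same colour to two different elements `x`, `y` such
that `y x⁻¹` is a square, then `G` has large one-coloured symmetric sets. -/
theorem t_SQ (hNEU : S_NEU) (hODD : S_ODD) (hFC : S_FC)
    {G : Type} [Group G] [Infinite G]
    (N : ℕ) (hN : 0 < N) (hexp : ∀ x : G, x ^ N = 1) (hinv : {x : G | x ^ 2 = 1}.Finite)
    (hcol : ∀ (m : ℕ) (f : G → Fin m), ∃ x y q : G, x ≠ y ∧ f x = f y ∧ q * q = y * x⁻¹) :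
    HasSym G := by
  obtain ⟨F, hFx⟩ := hFC G
  by_cases hF : (F : Set G).Infinite
  · have hFi : Infinite F := hF.to_subtype
    have h1 : HasSym F := by
      refine set_fc hODD ?_ N hN ?_ ?_
      · intro x
        have e : Subgroup.centralizer ({x} : Set F)
            = (Subgroup.centralizer ({(x : G)} : Set G)).subgroupOf F := by
          ext y
          rw [Subgroup.mem_subgroupOf, Subgroup.mem_centralizer_singleton_iff,
            Subgroup.mem_centralizer_singleton_iff]
          constructor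
          · intro h; exact congrArg Subtype.val h
          · intro h; exact Subtype.ext h
        rw [e]
        have : (Subgroup.centralizer ({(x : G)} : Set G)).FiniteIndex :=
          ⟨(hFx x).1 x.2⟩
        exact Subgroup.FiniteIndex.index_ne_zero
      · intro x
        exact Subtype.ext (by simpa using hexp (x : G))
      · refine Set.Finite.of_finite_image (f := Subtype.val) (hinv.subset ?_)
          (Subtype.val_injective.injOn)
        rintro _ ⟨x, hx, rfl⟩
        have := congrArg Subtype.val hx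
        simpa using this
    exact t_SUB _ _ h1
  · rw [Set.not_infinite] at hF
    have hFfin : Finite F := hF.to_subtype
    have hnorm : ∀ g f : G, f ∈ F → g * f * g⁻¹ ∈ F := by
      intro g f hf
      rw [hFx, odd_conj]
      exact (hFx f).1 hf
    intro k c n
    let R : G → G → Prop := fun x y => ∃ q : G, q ∉ F ∧ q * q = y * x⁻¹
    have hRs : ∀ x y, R x y → R y x := by
      rintro x y ⟨q, hq, hqq⟩
      refine ⟨q⁻¹, fun h => hq (by simpa using F.inv_mem h), ?_⟩
      rw [← mul_inv_rev, hqq]; group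
    have hfinS : ∃ S : Finset G, ∀ f : G → Fin k, ∃ x ∈ S, ∃ y ∈ S, x ≠ y ∧ R x y ∧ f x = f y := by
      by_contra hcon
      push Not at hcon
      obtain ⟨f, hf⟩ := compact_col R hRs k (by
        intro S
        obtain ⟨f, hf⟩ := hcon S
        exact ⟨f, hf⟩)
      have hh : ∀ x : G, ((x : G ⧸ F).out)⁻¹ * x ∈ F := by
        intro x
        rw [← QuotientGroup.eq]
        exact QuotientGroup.out_eq' _
      let e := Finite.equivFin (Fin k × F)
      obtain ⟨x, y, q, hxy, hfxy, hq⟩ := hcol _ (fun x => e (f x, ⟨_, hh x⟩))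
      have h1 := e.injective hfxy
      have h2 : f x = f y := congrArg Prod.fst h1
      have h3 : ((x : G ⧸ F).out)⁻¹ * x = ((y : G ⧸ F).out)⁻¹ * y :=
        congrArg (fun z => ((Prod.snd z : F) : G)) h1
      by_cases hqF : q ∈ F
      · have h4 : y * x⁻¹ ∈ F := by rw [← hq]; exact F.mul_mem hqF hqF
        have h5 := hnorm x⁻¹ _ h4
        have e1 : x⁻¹ * (y * x⁻¹) * x⁻¹⁻¹ = x⁻¹ * y := by group
        rw [e1] at h5
        have h6 : (x : G ⧸ F) = (y : G ⧸ F) := QuotientGroup.eq.2 h5
        rw [h6] at h3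
        exact hxy (mul_left_cancel h3)
      · exact hf x y hxy ⟨q, hqF, hq⟩ h2
    obtain ⟨S, hS⟩ := hfinS
    refine grid_graph hNEU G R k n c S hS ?_
    rintro x hx y hy hxy ⟨q, hqF, hqq⟩
    refine ⟨q * x, ?_, ?_⟩
    · calc q * x * x⁻¹ * (q * x) = (q * q) * x := by group
        _ = y := by rw [hqq]; group
    · by_contra hne
      have h1 : (q * x)⁻¹ * x ∈ F := (hFx _).2 hne
      have h2 : q⁻¹ ∈ F := by
        have := hnorm x _ h1
        have e : x * ((q * x)⁻¹ * x) * x⁻¹ = q⁻¹ := by group
        rwa [e] at this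
      exact hqF (by simpa using F.inv_mem h2)

end Pool.Agent.V11180.SY
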